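import Pool.Agent.Lib.MP_ac7dff_co.Tmpl

/-!
# The numerical estimates

`M = 2 ^ s`, `r = 4 * s`, `H = s * (4 * s - 1)`, `w = 24 / 25`.
-/

set_option autoImplicit false

namespace Pool.Agent.Lib.MP_ac7dff_co

open Finset

theorem choose_four (s : ℕ) : (4 * s).choose 2 = 2 * (s * (4 * s - 1)) := by
  rw [Nat.choose_two_right]
  have h : 4 * s * (4 * s - 1) = 2 * (2 * (s * (4 * s - 1))) := by ring
  rw [h, Nat.mul_div_cancel_left _ (by norm_num)]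

theorem theta_le {s t : ℕ} (hs : 1 ≤ s) (ht : 383 ≤ t) :
    ((2 : ℝ) ^ s) ^ (t + 1) * (7 / 16) ^ (s * t) ≤ 1 / 100 := by
  have h1 : ((2 : ℝ) ^ s) ^ (t + 1) * (7 / 16) ^ (s * t) = (2 * (7 / 8) ^ t) ^ s := by
    have h2 : (7 / 8 : ℝ) ^ t = 2 ^ t * (7 / 16) ^ t := by
      rw [← mul_pow]
      norm_num
    rw [h2, mul_pow, mul_pow, ← pow_mul, ← pow_mul, ← pow_mul, mul_comm t s, mul_add, pow_add,
      mul_one]
    ring
  have h3 : (2 : ℝ) * (7 / 8) ^ t ≤ 1 / 100 := by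
    have h4 : (7 / 8 : ℝ) ^ t ≤ (7 / 8) ^ 100 :=
      pow_le_pow_of_le_one (by norm_num) (by norm_num) (le_trans (by norm_num) ht)
    have h5 : (2 : ℝ) * (7 / 8) ^ 100 ≤ 1 / 100 := by norm_num
    linarith
  have h0 : (0 : ℝ) ≤ 2 * (7 / 8) ^ t := by positivity
  rw [h1]
  calc (2 * (7 / 8 : ℝ) ^ t) ^ s ≤ (2 * (7 / 8 : ℝ) ^ t) ^ 1 :=
        pow_le_pow_of_le_one h0 (h3.trans (by norm_num)) hs
    _ ≤ 1 / 100 := by rw [pow_one]; exact h3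

theorem seq_le (s : ℕ) (hs : 96 ≤ s) : 14 * (s : ℝ) ^ 2 * (2048 / 2401) ^ s ≤ 31 / 1000 := by
  induction s, hs using Nat.le_induction with
  | base => norm_num
  | succ s hs ih =>
    have h1 : (96 : ℝ) ≤ s := by exact_mod_cast hs
    have h2 : ((s : ℝ) + 1) ^ 2 * (2048 / 2401) ≤ (s : ℝ) ^ 2 := by nlinarith
    have h3 : (0 : ℝ) < (2048 / 2401 : ℝ) ^ s := by positivity
    push_cast
    calc 14 * ((s : ℝ) + 1) ^ 2 * (2048 / 2401) ^ (s + 1)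
        = 14 * (((s : ℝ) + 1) ^ 2 * (2048 / 2401)) * (2048 / 2401) ^ s := by ring
      _ ≤ 14 * (s : ℝ) ^ 2 * (2048 / 2401) ^ s := by
          refine mul_le_mul_of_nonneg_right ?_ h3.le
          linarith
      _ ≤ 31 / 1000 := ih

theorem pow_le_aux {r : ℕ} {x : ℝ} (hx : 0 ≤ x) (h : r * x ≤ 31 / 1000) :
    (1 + x) ^ r ≤ 1000 / 969 := by
  have h1 : (1 + x) ^ r ≤ Real.exp (r * x) := by
    have h2 : 1 + x ≤ Real.exp x := by
      have := Real.add_one_le_exp x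
      linarith
    calc (1 + x) ^ r ≤ Real.exp x ^ r := pow_le_pow_left₀ (by linarith) h2 _
      _ = Real.exp (r * x) := (Real.exp_nat_mul x r).symm
  have h3 : Real.exp (r * x) ≤ Real.exp (31 / 1000) := Real.exp_le_exp.2 h
  have h4 := Real.add_one_le_exp (-(31 / 1000) : ℝ)
  have h5 : Real.exp (31 / 1000) * Real.exp (-(31 / 1000)) = 1 := by
    rw [← Real.exp_add]
    norm_num
  have h6 := Real.exp_pos (31 / 1000)
  have h7 : Real.exp (31 / 1000) ≤ 1000 / 969 := by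
    rw [le_div_iff₀ (by norm_num)]
    nlinarith
  linarith

theorem hT_num {s : ℕ} (hs : 96 ≤ s) :
    (((2 ^ s : ℕ) : ℝ) + ((4 * s : ℕ) : ℝ) * (8 / 7) ^ (4 * s - 1)) ^ (4 * s) ≤
      1000 / 969 * (((2 ^ s : ℕ) : ℝ) ^ (4 * s)) := by
  have hM : (0 : ℝ) < 2 ^ s := by positivity
  set y : ℝ := (8 / 7) ^ (4 * s - 1) with hy
  set x : ℝ := ((4 * s : ℕ) : ℝ) * y / 2 ^ s with hx
  have hy0 : 0 < y := by positivity
  have hx0 : 0 ≤ x := by positivity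
  have h1 : (((2 ^ s : ℕ) : ℝ) + ((4 * s : ℕ) : ℝ) * y) = 2 ^ s * (1 + x) := by
    rw [hx]
    push_cast
    field_simp
  have h2 : ((4 * s : ℕ) : ℝ) * x ≤ 31 / 1000 := by
    have h3 : y = 7 / 8 * (4096 / 2401) ^ s := by
      have h4 : (4096 / 2401 : ℝ) ^ s = (8 / 7) ^ (4 * s) := by
        rw [pow_mul]
        norm_num
      have h5 : (8 / 7 : ℝ) ^ (4 * s) = (8 / 7) ^ (4 * s - 1) * (8 / 7) := by
        rw [← pow_succ]
        congr 1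
        omega
      rw [h4, h5, hy]
      ring
    have h6 : ((4 * s : ℕ) : ℝ) * x = 14 * (s : ℝ) ^ 2 * (2048 / 2401) ^ s := by
      have h7 : (2048 / 2401 : ℝ) ^ s = (4096 / 2401) ^ s / 2 ^ s := by
        rw [← div_pow]
        norm_num
      rw [hx, h3, h7]
      push_cast
      ring
    rw [h6]
    exact seq_le s hs
  rw [h1, mul_pow]
  have h8 := pow_le_aux hx0 h2
  have h9 : (0 : ℝ) < ((2 : ℝ) ^ s) ^ (4 * s) := by positivity
  push_cast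
  nlinarith

theorem one_num {s n k : ℕ} (hs : 1 ≤ s) (hk : 1 ≤ k) (hn : n ^ 48 ≤ 2 ^ ((k - 1) * (4 * s + 3))) :
    (n : ℝ) ^ 2 * (1 / ((2 ^ s : ℕ) : ℝ)) ^ k ≤ 1 / 2 := by
  have h1 : 2 * n ^ 2 ≤ (2 ^ s) ^ k := by
    rw [← Nat.pow_le_pow_iff_left (n := 24) (by norm_num)]
    calc (2 * n ^ 2) ^ 24 = 2 ^ 24 * n ^ 48 := by ring
      _ ≤ 2 ^ 24 * 2 ^ ((k - 1) * (4 * s + 3)) := Nat.mul_le_mul_left _ hn
      _ = 2 ^ (24 + (k - 1) * (4 * s + 3)) := (pow_add _ _ _).symm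
      _ ≤ 2 ^ (s * k * 24) := by
          refine Nat.pow_le_pow_right (by norm_num) ?_
          obtain ⟨m, rfl⟩ := Nat.exists_eq_add_of_le hk
          obtain ⟨t, rfl⟩ := Nat.exists_eq_add_of_le hs
          simp only [Nat.add_sub_cancel_left]
          nlinarith
      _ = ((2 ^ s) ^ k) ^ 24 := by rw [pow_mul, pow_mul]
  have h2 : (2 : ℝ) * (n : ℝ) ^ 2 ≤ (((2 ^ s : ℕ) : ℝ)) ^ k := by exact_mod_cast h1
  have h3 : (0 : ℝ) < (((2 ^ s : ℕ) : ℝ)) ^ k := by positivity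
  rw [one_div, inv_pow, ← div_eq_mul_inv, div_le_iff₀ h3]
  linarith

theorem two_num {s n k : ℕ} (hs : 96 ≤ s) (hk : 2 ≤ k)
    (hn : n ^ 48 ≤ 2 ^ ((k - 1) * (4 * s + 3))) :
    (n : ℝ) ^ (4 * s) * k * ((24 / 25 : ℝ) ^ 2) ^ ((k - 1) * (s * (4 * s - 1))) < 1 / 2 := by
  obtain ⟨m, rfl⟩ : ∃ m, k = m + 1 := ⟨k - 1, by omega⟩
  obtain ⟨t, ht⟩ : ∃ t, t = 4 * s - 1 := ⟨_, rfl⟩
  have ht4 : 4 * s + 3 = t + 4 := by omega
  have ht383 : 383 ≤ t := by omega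
  have hm : 1 ≤ m := by omega
  simp only [Nat.add_sub_cancel] at hn ⊢
  rw [← ht]
  rw [ht4] at hn
  set A : ℝ := (n : ℝ) ^ (4 * s) * ((m + 1 : ℕ) : ℝ) * ((24 / 25 : ℝ) ^ 2) ^ (m * (s * t)) with hA
  have hA0 : 0 ≤ A := by positivity
  have h1 : (n : ℝ) ^ 48 ≤ 2 ^ (m * (t + 4)) := by exact_mod_cast hn
  have h2 : ((n : ℝ) ^ (4 * s)) ^ 12 ≤ (2 ^ (t + 4)) ^ (m * s) := by
    calc ((n : ℝ) ^ (4 * s)) ^ 12 = ((n : ℝ) ^ 48) ^ s := by
          rw [← pow_mul, ← pow_mul]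
          congr 1
          ring
      _ ≤ (2 ^ (m * (t + 4))) ^ s := pow_le_pow_left₀ (by positivity) h1 _
      _ = (2 ^ (t + 4)) ^ (m * s) := by
          rw [← pow_mul, ← pow_mul]
          congr 1
          ring
  have h3 : (((m + 1 : ℕ) : ℝ)) ^ 12 ≤ (2 ^ 24) ^ m := by
    have h4 : m + 1 ≤ 2 ^ (2 * m) := by
      calc m + 1 ≤ 2 ^ (m + 1) := (Nat.lt_two_pow_self).le
        _ ≤ 2 ^ (2 * m) := Nat.pow_le_pow_right (by norm_num) (by omega)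
    calc (((m + 1 : ℕ) : ℝ)) ^ 12 ≤ (2 ^ (2 * m)) ^ 12 :=
          pow_le_pow_left₀ (by positivity) (by exact_mod_cast h4) _
      _ = (2 ^ 24) ^ m := by
          rw [← pow_mul, ← pow_mul]
          congr 1
          ring
  have h5 : (((24 / 25 : ℝ) ^ 2) ^ (m * (s * t))) ^ 12 = (((24 / 25 : ℝ) ^ 24) ^ t) ^ (m * s) := by
    rw [← pow_mul, ← pow_mul, ← pow_mul, ← pow_mul]
    congr 1
    ring
  have h6 : (2 : ℝ) ^ (t + 4) * ((24 / 25 : ℝ) ^ 24) ^ t ≤ (1 / 2) ^ 64 := by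
    have h7 : (2 : ℝ) ^ (t + 4) * ((24 / 25 : ℝ) ^ 24) ^ t = 16 * (2 * (24 / 25 : ℝ) ^ 24) ^ t := by
      rw [mul_pow, pow_add]
      ring
    rw [h7]
    calc 16 * (2 * (24 / 25 : ℝ) ^ 24) ^ t ≤ 16 * (4 / 5) ^ t := by
          refine mul_le_mul_of_nonneg_left (pow_le_pow_left₀ (by positivity) (by norm_num) _)
            (by norm_num)
      _ ≤ 16 * (4 / 5) ^ 250 := by
          refine mul_le_mul_of_nonneg_left ?_ (by norm_num)
          exact pow_le_pow_of_le_one (by norm_num) (by norm_num) (le_trans (by norm_num) ht383)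
      _ ≤ (1 / 2) ^ 64 := by norm_num
  have h8 : A ^ 12 < (1 / 2) ^ 12 := by
    calc A ^ 12 = ((n : ℝ) ^ (4 * s)) ^ 12 * (((m + 1 : ℕ) : ℝ)) ^ 12 *
          (((24 / 25 : ℝ) ^ 2) ^ (m * (s * t))) ^ 12 := by
          rw [hA, mul_pow, mul_pow]
      _ ≤ (2 ^ (t + 4)) ^ (m * s) * (2 ^ 24) ^ m * (((24 / 25 : ℝ) ^ 24) ^ t) ^ (m * s) := by
          rw [h5]
          gcongr
      _ = (2 ^ (t + 4) * ((24 / 25 : ℝ) ^ 24) ^ t) ^ (m * s) * (2 ^ 24) ^ m := by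
          rw [mul_pow]
          ring
      _ ≤ ((1 / 2) ^ 64) ^ (m * s) * (2 ^ 24) ^ m := by
          gcongr
      _ ≤ ((1 / 2) ^ 64) ^ m * (2 ^ 24) ^ m := by
          refine mul_le_mul_of_nonneg_right ?_ (by positivity)
          refine pow_le_pow_of_le_one (by positivity) (by norm_num) ?_
          exact Nat.le_mul_of_pos_right _ (by omega)
      _ = ((1 / 2) ^ 40) ^ m := by
          rw [← mul_pow]
          norm_num
      _ ≤ ((1 / 2) ^ 40) ^ 1 := pow_le_pow_of_le_one (by positivity) (by norm_num) hm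
      _ < (1 / 2) ^ 12 := by norm_num
  exact lt_of_pow_lt_pow_left₀ 12 (by norm_num) h8

end Pool.Agent.Lib.MP_ac7dff_co
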