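import Pool.Agent.Lib.MP_ac7dff_co.Main
import Pool.Agent.Lib.MP_ac7dff_co.Num

/-!
# List colourings without large monochromatic complete graphs
-/

set_option autoImplicit false

namespace Pool.Agent.Lib.MP_ac7dff_co

open Finset

/-- The condition on the templates. -/
theorem tmpl_num {s : ℕ} (hs : 96 ≤ s) :
    8 ^ Fintype.card (Sym2 (Fin (2 ^ s))) * (((2 ^ s : ℕ) : ℝ) +
      ((4 * s : ℕ) : ℝ) * (8 / 7) ^ (4 * s - 1)) ^ (4 * s) ≤
      4608 / 4375 * (((2 ^ s : ℕ) : ℝ) ^ (4 * s) *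
        (tmpl (2 ^ s) (4 * s) (s * (4 * s - 1))).card) ∧
    0 < (tmpl (2 ^ s) (4 * s) (s * (4 * s - 1))).card := by
  have h1 := card_tmpl (M := 2 ^ s) (choose_four s)
  have h2 : ((2 ^ s : ℕ) : ℝ) ^ (4 * s) * (7 / 16) ^ (s * (4 * s - 1)) ≤ 1 / 100 := by
    obtain ⟨t, ht⟩ : ∃ t, t = 4 * s - 1 := ⟨_, rfl⟩
    have ht' : 4 * s = t + 1 := by omega
    rw [← ht, ht']
    push_cast
    exact theta_le (by omega) (by omega)
  have h3 := hT_num hs
  set E : ℝ := (8 : ℝ) ^ Fintype.card (Sym2 (Fin (2 ^ s))) with hE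
  have hE0 : 0 < E := by positivity
  set N : ℝ := ((tmpl (2 ^ s) (4 * s) (s * (4 * s - 1))).card : ℝ) with hN
  have h4 : E * (99 / 100) ≤ N := by
    refine le_trans (mul_le_mul_of_nonneg_left ?_ hE0.le) h1
    linarith
  have hN0 : 0 < N := lt_of_lt_of_le (by positivity) h4
  refine ⟨?_, (Nat.cast_pos (α := ℝ)).1 hN0⟩
  have hM : (0 : ℝ) < ((2 ^ s : ℕ) : ℝ) ^ (4 * s) := by positivity
  calc E * (((2 ^ s : ℕ) : ℝ) + ((4 * s : ℕ) : ℝ) * (8 / 7) ^ (4 * s - 1)) ^ (4 * s)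
      ≤ E * (1000 / 969 * ((2 ^ s : ℕ) : ℝ) ^ (4 * s)) := mul_le_mul_of_nonneg_left h3 hE0.le
    _ = 1000 / 969 * (((2 ^ s : ℕ) : ℝ) ^ (4 * s) * E) := by ring
    _ ≤ 1000 / 969 * (((2 ^ s : ℕ) : ℝ) ^ (4 * s) * (N * (100 / 99))) := by
        refine mul_le_mul_of_nonneg_left (mul_le_mul_of_nonneg_left ?_ hM.le) (by norm_num)
        linarith
    _ = 1000 / 969 * (100 / 99) * (((2 ^ s : ℕ) : ℝ) ^ (4 * s) * N) := by ring
    _ ≤ 4608 / 4375 * (((2 ^ s : ℕ) : ℝ) ^ (4 * s) * N) := by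
        refine mul_le_mul_of_nonneg_right (by norm_num) (by positivity)

theorem big {s n k : ℕ} (hs : 96 ≤ s) (hk : 2 ≤ k) (hn : n ^ 48 ≤ 2 ^ ((k - 1) * (4 * s + 3)))
    (L : Fin n → Fin n → Finset ℕ) (hL : ∀ x y, x < y → (L x y).card = k) :
    ∃ c : Fin n → Fin n → ℕ, (∀ x y, x < y → c x y ∈ L x y) ∧
      ∀ K : Finset (Fin n), K.card = 4 * s → ∀ i, ¬ ∀ x ∈ K, ∀ y ∈ K, x < y → c x y = i := by
  classical
  set P : Finset ℕ := insert 0 (univ.biUnion fun x : Fin n => univ.biUnion fun y => L x y) with hP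
  have hsub : ∀ x y, L x y ⊆ P := by
    intro x y j hj
    rw [hP, Finset.mem_insert]
    exact Or.inr (Finset.mem_biUnion.2 ⟨x, Finset.mem_univ _,
      Finset.mem_biUnion.2 ⟨y, Finset.mem_univ _, hj⟩⟩)
  have hne : Nonempty P := ⟨⟨0, Finset.mem_insert_self _ _⟩⟩
  set L' : Fin n × Fin n → Finset P := fun p => (L p.1 p.2).subtype (· ∈ P) with hL'
  have hcard : ∀ p : Fin n × Fin n, p.1 < p.2 → (L' p).card = k := by
    intro p hp
    rw [hL', Finset.card_subtype, Finset.filter_true_of_mem fun j hj => hsub _ _ hj]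
    exact hL _ _ hp
  obtain ⟨h1, h2⟩ := tmpl_num hs
  obtain ⟨c, hc, hc'⟩ := main_abs (V := Fin n) (J := P) (M := 2 ^ s) (r := 4 * s)
    (H := s * (4 * s - 1)) (k := k) (by positivity) (by omega) (choose_four s)
    (T := 4608 / 4375) (w := 24 / 25) h1 h2 (by norm_num) (by norm_num) (by norm_num) L' hcard
    (by
      rw [Fintype.card_fin]
      exact one_num (by omega) (by omega) hn)
    (by
      rw [Fintype.card_fin]
      exact two_num hs hk hn)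
  refine ⟨fun x y => (c (x, y)).1, fun x y hxy => ?_, fun K hK i hi => ?_⟩
  · exact Finset.mem_subtype.1 (hc (x, y) hxy)
  · have hcd : 0 < (eds K).card := by
      rw [card_eds, hK]
      exact Nat.choose_pos (by omega)
    obtain ⟨q, hq⟩ := Finset.card_pos.1 hcd
    refine hc' K hK (c q) fun p hp => ?_
    rw [mem_eds] at hp hq
    apply Subtype.ext
    have e1 : (c p).1 = i := hi p.1 hp.1 p.2 hp.2.1 hp.2.2
    have e2 : (c q).1 = i := hi q.1 hq.1 q.2 hq.2.1 hq.2.2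
    rw [e1, e2]

end Pool.Agent.Lib.MP_ac7dff_co
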