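import Mathlib

/-!
# Random maps: collisions

`V` is a finite set, `ψ` runs through all maps from `V` to `Fin M`.
-/

set_option autoImplicit false

namespace Pool.Agent.Lib.MP_ac7dff_co

open Finset

variable {V : Type*} [Fintype V] [DecidableEq V] {M : ℕ}

/-- Resampling the value at `a`. -/
theorem avg (a : V) (g : (V → Fin M) → ℝ) :
    (M : ℝ) * ∑ ψ, g ψ = ∑ ψ : V → Fin M, ∑ b : Fin M, g (Function.update ψ a b) := by
  classical
  let σ : (V → Fin M) × Fin M → (V → Fin M) × Fin M := fun p => (Function.update p.1 a p.2, p.1 a)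
  have hσ : Function.Involutive σ := by
    rintro ⟨ψ, b⟩
    simp [σ]
  have h1 : ∑ ψ : V → Fin M, ∑ b : Fin M, g (Function.update ψ a b) =
      ∑ p : (V → Fin M) × Fin M, g (σ p).1 := by
    rw [Fintype.sum_prod_type]
  have h2 : ∑ p : (V → Fin M) × Fin M, g (σ p).1 = ∑ p : (V → Fin M) × Fin M, g p.1 :=
    Equiv.sum_comp hσ.toPerm fun p => g p.1
  rw [h1, h2, Fintype.sum_prod_type]
  simp only [Finset.sum_const, Finset.card_univ, Fintype.card_fin, nsmul_eq_mul, Finset.mul_sum]

/-- The exponential moment of the number of collisions on `K`. -/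
theorem coll (y : ℝ) (hy : 0 ≤ y) (K : Finset V) :
    (M : ℝ) ^ K.card * ∑ ψ : V → Fin M, y ^ (K.card - (K.image ψ).card) ≤
      (M : ℝ) ^ Fintype.card V * (M + K.card * y) ^ K.card := by
  classical
  induction K using Finset.induction_on with
  | empty => simp
  | insert a K ha ih =>
    have hle : ∀ ψ : V → Fin M, ∑ b : Fin M,
        y ^ ((insert a K).card - ((insert a K).image (Function.update ψ a b)).card) ≤
        (M + K.card * y) * y ^ (K.card - (K.image ψ).card) := by
      intro ψ
      have him : ∀ b : Fin M, (insert a K).image (Function.update ψ a b) =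
          insert b (K.image ψ) := by
        intro b
        rw [Finset.image_insert, Function.update_self]
        congr 1
        refine Finset.image_congr fun x hx => ?_
        rw [Function.update_of_ne]
        rintro rfl
        exact ha hx
      have hcard : (K.image ψ).card ≤ K.card := Finset.card_image_le
      have hterm : ∀ b : Fin M,
          y ^ ((insert a K).card - ((insert a K).image (Function.update ψ a b)).card) =
          (if b ∈ K.image ψ then y else 1) * y ^ (K.card - (K.image ψ).card) := by
        intro b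
        rw [him, Finset.card_insert_of_notMem ha]
        split_ifs with hb
        · rw [Finset.insert_eq_of_mem hb, Nat.succ_sub hcard, pow_succ, mul_comm]
        · rw [Finset.card_insert_of_notMem hb, Nat.add_sub_add_right, one_mul]
      rw [Finset.sum_congr rfl fun b _ => hterm b, ← Finset.sum_mul]
      refine mul_le_mul_of_nonneg_right ?_ (pow_nonneg hy _)
      have h3 : ∀ b : Fin M, (if b ∈ K.image ψ then y else 1) ≤
          1 + (if b ∈ K.image ψ then y else 0) := by
        intro b
        split_ifs
        · linarith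
        · linarith
      refine (Finset.sum_le_sum fun b _ => h3 b).trans ?_
      rw [Finset.sum_add_distrib, Finset.sum_ite_mem, Finset.univ_inter]
      simp only [Finset.sum_const, Finset.card_univ, Fintype.card_fin, nsmul_eq_mul, mul_one]
      have h4 : ((K.image ψ).card : ℝ) ≤ K.card := by exact_mod_cast hcard
      nlinarith
    have h5 : (M : ℝ) * ∑ ψ : V → Fin M, y ^ ((insert a K).card - ((insert a K).image ψ).card) ≤
        (M + K.card * y) * ∑ ψ : V → Fin M, y ^ (K.card - (K.image ψ).card) := by
      rw [avg a, Finset.mul_sum]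
      exact Finset.sum_le_sum fun ψ _ => hle ψ
    rw [Finset.card_insert_of_notMem ha] at h5 ⊢
    have hb0 : (0 : ℝ) ≤ M + K.card * y := by positivity
    calc (M : ℝ) ^ (K.card + 1) * ∑ ψ : V → Fin M, y ^ (K.card + 1 - ((insert a K).image ψ).card)
        = (M : ℝ) ^ K.card * ((M : ℝ) * ∑ ψ : V → Fin M,
            y ^ (K.card + 1 - ((insert a K).image ψ).card)) := by ring
      _ ≤ (M : ℝ) ^ K.card * ((M + K.card * y) * ∑ ψ : V → Fin M,
            y ^ (K.card - (K.image ψ).card)) := mul_le_mul_of_nonneg_left h5 (by positivity)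
      _ = (M + K.card * y) * ((M : ℝ) ^ K.card * ∑ ψ : V → Fin M,
            y ^ (K.card - (K.image ψ).card)) := by ring
      _ ≤ (M + K.card * y) * ((M : ℝ) ^ Fintype.card V * (M + K.card * y) ^ K.card) :=
          mul_le_mul_of_nonneg_left ih hb0
      _ = (M : ℝ) ^ Fintype.card V * (M + K.card * y) ^ (K.card + 1) := by ring
      _ ≤ (M : ℝ) ^ Fintype.card V * (M + ((K.card + 1 : ℕ) : ℝ) * y) ^ (K.card + 1) := by
          refine mul_le_mul_of_nonneg_left (pow_le_pow_left₀ hb0 ?_ _) (by positivity)
          push_cast
          nlinarith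

/-- Two vertices collide with probability `1 / M`. -/
theorem coll_two {x y : V} (hxy : x ≠ y) :
    (M : ℝ) * ((univ.filter fun ψ : V → Fin M => ψ x = ψ y).card : ℝ) =
      (M : ℝ) ^ Fintype.card V := by
  classical
  have h1 : ((univ.filter fun ψ : V → Fin M => ψ x = ψ y).card : ℝ) =
      ∑ ψ : V → Fin M, if ψ x = ψ y then (1 : ℝ) else 0 := by
    rw [Finset.sum_boole]
  rw [h1, avg x]
  have h2 : ∀ ψ : V → Fin M, ∑ b : Fin M,
      (if Function.update ψ x b x = Function.update ψ x b y then (1 : ℝ) else 0) = 1 := by
    intro ψ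
    simp only [Function.update_self, Function.update_of_ne hxy.symm]
    rw [Finset.sum_ite_eq' univ (ψ y) fun _ => (1 : ℝ)]
    simp
  rw [Finset.sum_congr rfl fun ψ _ => h2 ψ]
  simp

end Pool.Agent.Lib.MP_ac7dff_co
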