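import Pool.Agent.Lib.MP_ac7dff_co.Coll

/-!
# The probability that a colour is good for no edge of a graph

`h : Sym2 (Fin M) → Fin 8` is a random function; the pair `e` is an edge of the template if
`h e = 0`. A colour with the data `(ψ, h)` is good for the edge `xy` if `ψ x ≠ ψ y` and
`h s(ψ x, ψ y) = 0`.
-/

set_option autoImplicit false

namespace Pool.Agent.Lib.MP_ac7dff_co

open Finset

/-- Functions avoiding the value `0` on `I`. -/
theorem card_avoid {E : Type*} [Fintype E] [DecidableEq E] (I : Finset E) :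
    ((univ.filter fun h : E → Fin 8 => ∀ e ∈ I, h e ≠ 0).card : ℝ) =
      8 ^ Fintype.card E * (7 / 8) ^ I.card := by
  classical
  have h1 : (univ.filter fun h : E → Fin 8 => ∀ e ∈ I, h e ≠ 0) =
      Fintype.piFinset fun e => if e ∈ I then univ.erase (0 : Fin 8) else univ := by
    ext h
    rw [Finset.mem_filter, Fintype.mem_piFinset]
    constructor
    · rintro ⟨-, hh⟩ e
      split_ifs with he
      · exact Finset.mem_erase.2 ⟨hh e he, Finset.mem_univ _⟩
      · exact Finset.mem_univ _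
    · intro hh
      refine ⟨Finset.mem_univ _, fun e he => ?_⟩
      have := hh e
      rw [if_pos he] at this
      exact (Finset.mem_erase.1 this).1
  rw [h1, Fintype.card_piFinset, Nat.cast_prod]
  have h2 : ∀ e : E, (((if e ∈ I then univ.erase (0 : Fin 8) else univ).card : ℕ) : ℝ) =
      8 * (if e ∈ I then 7 / 8 else 1) := by
    intro e
    split_ifs
    · rw [Finset.card_erase_of_mem (Finset.mem_univ _), Finset.card_univ, Fintype.card_fin]
      norm_num
    · rw [Finset.card_univ, Fintype.card_fin]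
      norm_num
  rw [Finset.prod_congr rfl fun e _ => h2 e, Finset.prod_mul_distrib, Finset.prod_const,
    Finset.card_univ, Finset.prod_ite_mem, Finset.univ_inter, Finset.prod_const]

variable {V : Type*} [Fintype V] [LinearOrder V] {M : ℕ}

/-- The pairs of different images of the edges of `F`. -/
def im2 (F : Finset (V × V)) (ψ : V → Fin M) : Finset (Sym2 (Fin M)) :=
  (F.filter fun p => ψ p.1 ≠ ψ p.2).image fun p => s(ψ p.1, ψ p.2)

omit [Fintype V] in
theorem card_le_im2 (K : Finset V) (F : Finset (V × V))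
    (hF : ∀ p ∈ F, p.1 ∈ K ∧ p.2 ∈ K ∧ p.1 < p.2) (ψ : V → Fin M) :
    F.card ≤ (im2 F ψ).card + (K.card - 1) * (K.card - (K.image ψ).card) := by
  classical
  obtain ⟨S, hS, hbij⟩ := (Set.surjOn_image ψ (K : Set V)).exists_bijOn_subset
  set K' : Finset V := K.filter (· ∈ S) with hK'
  have hK'S : (K' : Set V) = S := by
    ext x
    simp only [hK', Finset.coe_filter, Set.mem_ofPred_eq]
    exact ⟨fun h => h.2, fun h => ⟨hS h, h⟩⟩
  have hinj : Set.InjOn ψ (K' : Set V) := by
    rw [hK'S]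
    exact hbij.injOn
  have hKK : K'.card = (K.image ψ).card := by
    have h1 : K'.image ψ = K.image ψ := by
      apply Finset.coe_injective
      rw [Finset.coe_image, Finset.coe_image, hK'S, hbij.image_eq]
    rw [← h1, Finset.card_image_of_injOn hinj]
  have hsub : K' ⊆ K := Finset.filter_subset _ _
  -- the edges inside the transversal
  have h1 : (F.filter fun p => p.1 ∈ K' ∧ p.2 ∈ K').card ≤ (im2 F ψ).card := by
    refine Finset.card_le_card_of_injOn (fun p => s(ψ p.1, ψ p.2)) ?_ ?_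
    · intro p hp
      rw [Finset.mem_coe, Finset.mem_filter] at hp
      rw [Finset.mem_coe, im2, Finset.mem_image]
      refine ⟨p, Finset.mem_filter.2 ⟨hp.1, fun h => ?_⟩, rfl⟩
      exact (hF p hp.1).2.2.ne (hinj hp.2.1 hp.2.2 h)
    · intro p hp q hq hpq
      rw [Finset.mem_coe, Finset.mem_filter] at hp hq
      have hp3 := (hF p hp.1).2.2
      have hq3 := (hF q hq.1).2.2
      rcases Sym2.eq_iff.1 hpq with ⟨e1, e2⟩ | ⟨e1, e2⟩
      · exact Prod.ext (hinj hp.2.1 hq.2.1 e1) (hinj hp.2.2 hq.2.2 e2)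
      · have e3 := hinj hp.2.1 hq.2.2 e1
        have e4 := hinj hp.2.2 hq.2.1 e2
        rw [e3, e4] at hp3
        exact absurd hp3 (lt_asymm hq3)
  -- the other edges
  have h2 : (F.filter fun p => ¬ (p.1 ∈ K' ∧ p.2 ∈ K')).card ≤
      (K.card - 1) * (K.card - (K.image ψ).card) := by
    have h3 : (F.filter fun p => ¬ (p.1 ∈ K' ∧ p.2 ∈ K')) ⊆
        (K \ K').biUnion fun a => F.filter fun p => p.1 = a ∨ p.2 = a := by
      intro p hp
      rw [Finset.mem_filter, not_and_or] at hp
      rw [Finset.mem_biUnion]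
      rcases hp.2 with h | h
      · exact ⟨p.1, Finset.mem_sdiff.2 ⟨(hF p hp.1).1, h⟩, Finset.mem_filter.2 ⟨hp.1, Or.inl rfl⟩⟩
      · exact ⟨p.2, Finset.mem_sdiff.2 ⟨(hF p hp.1).2.1, h⟩,
          Finset.mem_filter.2 ⟨hp.1, Or.inr rfl⟩⟩
    have h4 : ∀ a ∈ K \ K', (F.filter fun p => p.1 = a ∨ p.2 = a).card ≤ K.card - 1 := by
      intro a ha
      have haK := (Finset.mem_sdiff.1 ha).1
      rw [← Finset.card_erase_of_mem haK]
      refine Finset.card_le_card_of_injOn (fun p => if p.1 = a then p.2 else p.1) ?_ ?_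
      · intro p hp
        rw [Finset.mem_coe, Finset.mem_filter] at hp
        obtain ⟨h5, h6, h7⟩ := hF p hp.1
        rw [Finset.mem_coe, Finset.mem_erase]
        change (if p.1 = a then p.2 else p.1) ≠ a ∧ (if p.1 = a then p.2 else p.1) ∈ K
        by_cases h : p.1 = a
        · rw [if_pos h]
          exact ⟨fun e => h7.ne (h.trans e.symm), h6⟩
        · rw [if_neg h]
          exact ⟨h, h5⟩
      · intro p hp q hq hpq
        rw [Finset.mem_coe, Finset.mem_filter] at hp hq
        have hp3 := (hF p hp.1).2.2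
        have hq3 := (hF q hq.1).2.2
        have hpq' : (if p.1 = a then p.2 else p.1) = (if q.1 = a then q.2 else q.1) := hpq
        by_cases h : p.1 = a <;> by_cases h' : q.1 = a
        · rw [if_pos h, if_pos h'] at hpq'
          exact Prod.ext (h.trans h'.symm) hpq'
        · rw [if_pos h, if_neg h'] at hpq'
          have hq2 : q.2 = a := hq.2.resolve_left h'
          rw [h, hpq'] at hp3
          rw [hq2] at hq3
          exact absurd hp3 (lt_asymm hq3)
        · rw [if_neg h, if_pos h'] at hpq'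
          have hp2 : p.2 = a := hp.2.resolve_left h
          rw [h', ← hpq'] at hq3
          rw [hp2] at hp3
          exact absurd hp3 (lt_asymm hq3)
        · rw [if_neg h, if_neg h'] at hpq'
          have hq2 : q.2 = a := hq.2.resolve_left h'
          have hp2 : p.2 = a := hp.2.resolve_left h
          exact Prod.ext hpq' (hp2.trans hq2.symm)
    calc (F.filter fun p => ¬ (p.1 ∈ K' ∧ p.2 ∈ K')).card
        ≤ ((K \ K').biUnion fun a => F.filter fun p => p.1 = a ∨ p.2 = a).card :=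
          Finset.card_le_card h3
      _ ≤ ∑ a ∈ K \ K', (F.filter fun p => p.1 = a ∨ p.2 = a).card := Finset.card_biUnion_le
      _ ≤ ∑ _a ∈ K \ K', (K.card - 1) := Finset.sum_le_sum h4
      _ = (K.card - 1) * (K.card - (K.image ψ).card) := by
          rw [Finset.sum_const, smul_eq_mul, Finset.card_sdiff_of_subset hsub, hKK, mul_comm]
  have h5 := Finset.card_filter_add_card_filter_not (s := F) (fun p => p.1 ∈ K' ∧ p.2 ∈ K')
  omega

/-- The number of the pairs `(ψ, h)` for which no edge of `F` is good. -/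
theorem card_fail (K : Finset V) (F : Finset (V × V))
    (hF : ∀ p ∈ F, p.1 ∈ K ∧ p.2 ∈ K ∧ p.1 < p.2) :
    (M : ℝ) ^ K.card * ((univ.filter fun ω : (V → Fin M) × (Sym2 (Fin M) → Fin 8) =>
      ∀ p ∈ F, ¬ (ω.1 p.1 ≠ ω.1 p.2 ∧ ω.2 s(ω.1 p.1, ω.1 p.2) = 0)).card : ℝ) ≤
      8 ^ Fintype.card (Sym2 (Fin M)) * (7 / 8) ^ F.card * ((M : ℝ) ^ Fintype.card V *
        (M + K.card * (8 / 7) ^ (K.card - 1)) ^ K.card) := by
  classical
  have h1 : ((univ.filter fun ω : (V → Fin M) × (Sym2 (Fin M) → Fin 8) =>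
      ∀ p ∈ F, ¬ (ω.1 p.1 ≠ ω.1 p.2 ∧ ω.2 s(ω.1 p.1, ω.1 p.2) = 0)).card : ℝ) =
      ∑ ψ : V → Fin M, ((univ.filter fun h : Sym2 (Fin M) → Fin 8 =>
        ∀ e ∈ im2 F ψ, h e ≠ 0).card : ℝ) := by
    rw [Finset.card_filter, Fintype.sum_prod_type]
    push_cast
    refine Finset.sum_congr rfl fun ψ _ => ?_
    rw [Finset.card_filter]
    push_cast
    refine Finset.sum_congr rfl fun h _ => ?_
    congr 1
    apply propext
    constructor
    · intro hh e he
      rw [im2, Finset.mem_image] at he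
      obtain ⟨p, hp, rfl⟩ := he
      rw [Finset.mem_filter] at hp
      exact fun h0 => hh p hp.1 ⟨hp.2, h0⟩
    · rintro hh p hp ⟨hne, h0⟩
      exact hh _ (Finset.mem_image.2 ⟨p, Finset.mem_filter.2 ⟨hp, hne⟩, rfl⟩) h0
  have h2 : ∀ ψ : V → Fin M, ((univ.filter fun h : Sym2 (Fin M) → Fin 8 =>
        ∀ e ∈ im2 F ψ, h e ≠ 0).card : ℝ) ≤ 8 ^ Fintype.card (Sym2 (Fin M)) * (7 / 8) ^ F.card *
          ((8 / 7) ^ (K.card - 1)) ^ (K.card - (K.image ψ).card) := by
    intro ψ
    rw [card_avoid, mul_assoc]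
    refine mul_le_mul_of_nonneg_left ?_ (by positivity)
    have h3 := card_le_im2 K F hF ψ
    rw [← pow_mul]
    set e := (K.card - 1) * (K.card - (K.image ψ).card) with he
    have h4 : (7 / 8 : ℝ) ^ ((im2 F ψ).card + e) ≤ (7 / 8 : ℝ) ^ F.card :=
      pow_le_pow_of_le_one (by norm_num) (by norm_num) h3
    have h5 : (7 / 8 : ℝ) ^ (im2 F ψ).card = (7 / 8 : ℝ) ^ ((im2 F ψ).card + e) * (8 / 7) ^ e := by
      rw [pow_add, mul_assoc, ← mul_pow]
      norm_num
    rw [h5]
    exact mul_le_mul_of_nonneg_right h4 (by positivity)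
  have h6 := coll (M := M) ((8 / 7 : ℝ) ^ (K.card - 1)) (by positivity) K
  rw [h1]
  calc (M : ℝ) ^ K.card * ∑ ψ : V → Fin M, ((univ.filter fun h : Sym2 (Fin M) → Fin 8 =>
        ∀ e ∈ im2 F ψ, h e ≠ 0).card : ℝ)
      ≤ (M : ℝ) ^ K.card * ∑ ψ : V → Fin M, 8 ^ Fintype.card (Sym2 (Fin M)) *
          (7 / 8) ^ F.card * ((8 / 7) ^ (K.card - 1)) ^ (K.card - (K.image ψ).card) :=
        mul_le_mul_of_nonneg_left (Finset.sum_le_sum fun ψ _ => h2 ψ) (by positivity)
    _ = 8 ^ Fintype.card (Sym2 (Fin M)) * (7 / 8) ^ F.card * ((M : ℝ) ^ K.card *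
          ∑ ψ : V → Fin M, ((8 / 7 : ℝ) ^ (K.card - 1)) ^ (K.card - (K.image ψ).card)) := by
        rw [← Finset.mul_sum]
        ring
    _ ≤ _ := mul_le_mul_of_nonneg_left h6 (by positivity)

end Pool.Agent.Lib.MP_ac7dff_co
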