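import Pool.Agent.Lib.MP_ac7dff_co.Prod

/-!
# The union bound

An abstract form of the theorem, with the numerical conditions as hypotheses.
-/

set_option autoImplicit false

namespace Pool.Agent.Lib.MP_ac7dff_co

open Finset

open Classical in
/-- The union bound. -/
theorem exists_data {V : Type} [Fintype V] [LinearOrder V] {J : Type} [Fintype J] [DecidableEq J]
    {M r H k : ℕ} (hM : 0 < M) (hr2 : 2 ≤ r) (hr : r.choose 2 = 2 * H) {T w : ℝ}
    (hT : 8 ^ Fintype.card (Sym2 (Fin M)) * ((M : ℝ) + r * (8 / 7) ^ (r - 1)) ^ r ≤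
      T * ((M : ℝ) ^ r * (tmpl M r H).card)) (hpos : 0 < (tmpl M r H).card)
    (hw : T * (7 / 8) ≤ w ^ 2) (hw' : 7 / 8 ≤ w ^ 2)
    (hw1 : w ^ 2 ≤ 1) (L : V × V → Finset J) (hL : ∀ p : V × V, p.1 < p.2 → (L p).card = k)
    (h1 : (Fintype.card V : ℝ) ^ 2 * (1 / (M : ℝ)) ^ k ≤ 1 / 2)
    (h2 : (Fintype.card V : ℝ) ^ r * k * (w ^ 2) ^ ((k - 1) * H) < 1 / 2) :
    ∃ ω : J → Om V M r H, (∀ p : V × V, p.1 < p.2 → ∃ j ∈ L p, (ω j).1 p.1 ≠ (ω j).1 p.2) ∧
      ∀ K : Finset V, K.card = r → ∀ i, (∀ p ∈ eds K, i ∈ L p) → Set.InjOn (ω i).1 (K : Set V) →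
        ∃ p ∈ eds K, ¬ good (ω i) p ∧ ∃ j ∈ L p, good (ω j) p := by
  set N : ℝ := (Fintype.card (Om V M r H) : ℝ) ^ Fintype.card J with hN
  have hNpos : 0 < N := by
    have h3 : (0 : ℝ) < Fintype.card (Om V M r H) := by
      rw [card_Om]
      have : (0 : ℝ) < (tmpl M r H).card := by exact_mod_cast hpos
      have hM' : (0 : ℝ) < M := by exact_mod_cast hM
      positivity
    positivity
  have hcard : ((Finset.univ : Finset (J → Om V M r H)).card : ℝ) = N := by
    rw [Finset.card_univ, Fintype.card_fun]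
    push_cast
    rfl
  set B1 : Finset (J → Om V M r H) := (univ.filter fun p : V × V => p.1 < p.2).biUnion fun p =>
    univ.filter fun ω => ∀ j ∈ L p, (ω j).1 p.1 = (ω j).1 p.2 with hB1
  set C : Finset V → Finset J := fun K => univ.filter fun i => ∀ p ∈ eds K, i ∈ L p with hC
  set B2 : Finset (J → Om V M r H) := (powersetCard r (univ : Finset V)).biUnion fun K =>
    (C K).biUnion fun i => univ.filter fun ω => Set.InjOn (ω i).1 (K : Set V) ∧
      ∀ p ∈ eds K, good (ω i) p ∨ ∀ j ∈ L p, ¬ good (ω j) p with hB2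
  have hb1 : (B1.card : ℝ) ≤ 1 / 2 * N := by
    calc (B1.card : ℝ) ≤ ∑ p ∈ univ.filter fun p : V × V => p.1 < p.2,
          ((univ.filter fun ω : J → Om V M r H => ∀ j ∈ L p, (ω j).1 p.1 = (ω j).1 p.2).card : ℝ) := by
          exact_mod_cast Finset.card_biUnion_le
      _ ≤ ∑ _p ∈ univ.filter fun p : V × V => p.1 < p.2, (1 / (M : ℝ)) ^ k * N := by
          refine Finset.sum_le_sum fun p hp => ?_
          have hp' := (Finset.mem_filter.1 hp).2
          have h3 := bad_one (r := r) (H := H) hM hp'.ne (L p)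
          rw [hL p hp'] at h3
          exact h3
      _ = ((univ.filter fun p : V × V => p.1 < p.2).card : ℝ) * ((1 / (M : ℝ)) ^ k * N) := by
          rw [Finset.sum_const, nsmul_eq_mul]
      _ ≤ (Fintype.card V : ℝ) ^ 2 * ((1 / (M : ℝ)) ^ k * N) := by
          refine mul_le_mul_of_nonneg_right ?_ (by positivity)
          have h3 : (univ.filter fun p : V × V => p.1 < p.2).card ≤ Fintype.card V ^ 2 := by
            refine (Finset.card_le_univ _).trans ?_
            rw [Fintype.card_prod, sq]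
          exact_mod_cast h3
      _ = (Fintype.card V : ℝ) ^ 2 * (1 / (M : ℝ)) ^ k * N := by ring
      _ ≤ 1 / 2 * N := mul_le_mul_of_nonneg_right h1 hNpos.le
  have hCk : ∀ K ∈ powersetCard r (univ : Finset V), (C K).card ≤ k := by
    intro K hK
    have hK' := (Finset.mem_powersetCard.1 hK).2
    have h3 : 0 < (eds K).card := by
      rw [card_eds, hK']
      exact Nat.choose_pos hr2
    obtain ⟨p, hp⟩ := Finset.card_pos.1 h3
    rw [← hL p (mem_eds.1 hp).2.2]
    exact Finset.card_le_card fun i hi => (Finset.mem_filter.1 hi).2 p hp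
  have hw0 : (0 : ℝ) ≤ (w ^ 2) ^ ((k - 1) * H) := by positivity
  have hb2 : (B2.card : ℝ) < 1 / 2 * N := by
    calc (B2.card : ℝ) ≤ ∑ K ∈ powersetCard r (univ : Finset V), ∑ i ∈ C K,
          ((univ.filter fun ω : J → Om V M r H => Set.InjOn (ω i).1 (K : Set V) ∧
            ∀ p ∈ eds K, good (ω i) p ∨ ∀ j ∈ L p, ¬ good (ω j) p).card : ℝ) := by
          have h3 : B2.card ≤ ∑ K ∈ powersetCard r (univ : Finset V), ∑ i ∈ C K,
            (univ.filter fun ω : J → Om V M r H => Set.InjOn (ω i).1 (K : Set V) ∧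
              ∀ p ∈ eds K, good (ω i) p ∨ ∀ j ∈ L p, ¬ good (ω j) p).card :=
            Finset.card_biUnion_le.trans (Finset.sum_le_sum fun K _ => Finset.card_biUnion_le)
          exact_mod_cast h3
      _ ≤ ∑ K ∈ powersetCard r (univ : Finset V), ∑ _i ∈ C K, (w ^ 2) ^ ((k - 1) * H) * N := by
          refine Finset.sum_le_sum fun K hK => Finset.sum_le_sum fun i hi => ?_
          refine bad_two hM hr (Finset.mem_powersetCard.1 hK).2 hT hw hw' hw1 i L fun p hp => ?_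
          exact ⟨hL p (mem_eds.1 hp).2.2, (Finset.mem_filter.1 hi).2 p hp⟩
      _ ≤ ∑ _K ∈ powersetCard r (univ : Finset V), (k : ℝ) * ((w ^ 2) ^ ((k - 1) * H) * N) := by
          refine Finset.sum_le_sum fun K hK => ?_
          rw [Finset.sum_const, nsmul_eq_mul]
          refine mul_le_mul_of_nonneg_right ?_ (by positivity)
          exact_mod_cast hCk K hK
      _ = ((powersetCard r (univ : Finset V)).card : ℝ) *
            ((k : ℝ) * ((w ^ 2) ^ ((k - 1) * H) * N)) := by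
          rw [Finset.sum_const, nsmul_eq_mul]
      _ ≤ (Fintype.card V : ℝ) ^ r * ((k : ℝ) * ((w ^ 2) ^ ((k - 1) * H) * N)) := by
          refine mul_le_mul_of_nonneg_right ?_ (by positivity)
          rw [Finset.card_powersetCard, Finset.card_univ]
          exact_mod_cast Nat.choose_le_pow _ _
      _ = (Fintype.card V : ℝ) ^ r * k * (w ^ 2) ^ ((k - 1) * H) * N := by ring
      _ < 1 / 2 * N := mul_lt_mul_of_pos_right h2 hNpos
  have hex : ∃ ω : J → Om V M r H, ω ∉ B1 ∪ B2 := by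
    by_contra hcon
    push Not at hcon
    have h3 : (Finset.univ : Finset (J → Om V M r H)) ⊆ B1 ∪ B2 := fun ω _ => hcon ω
    have h4 : ((Finset.univ : Finset (J → Om V M r H)).card : ℝ) ≤ B1.card + B2.card := by
      exact_mod_cast (Finset.card_le_card h3).trans (Finset.card_union_le _ _)
    rw [hcard] at h4
    linarith
  obtain ⟨ω, hω⟩ := hex
  rw [Finset.mem_union, not_or] at hω
  refine ⟨ω, fun p hp => ?_, fun K hK i hi hinj => ?_⟩
  · by_contra hcon
    push Not at hcon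
    refine hω.1 (Finset.mem_biUnion.2 ⟨p, Finset.mem_filter.2 ⟨Finset.mem_univ _, hp⟩,
      Finset.mem_filter.2 ⟨Finset.mem_univ _, hcon⟩⟩)
  · by_contra hcon
    push Not at hcon
    refine hω.2 (Finset.mem_biUnion.2 ⟨K, Finset.mem_powersetCard.2 ⟨Finset.subset_univ _, hK⟩,
      Finset.mem_biUnion.2 ⟨i, Finset.mem_filter.2 ⟨Finset.mem_univ _, hi⟩,
        Finset.mem_filter.2 ⟨Finset.mem_univ _, hinj, fun p hp => ?_⟩⟩⟩)
    by_cases hg : good (ω i) p
    · exact Or.inl hg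
    · exact Or.inr (hcon p hp hg)

/-- The colouring. -/
theorem main_abs {V : Type} [Fintype V] [LinearOrder V] {J : Type} [Fintype J] [DecidableEq J]
    [Nonempty J] {M r H k : ℕ} (hM : 0 < M) (hr2 : 2 ≤ r) (hr : r.choose 2 = 2 * H) {T w : ℝ}
    (hT : 8 ^ Fintype.card (Sym2 (Fin M)) * ((M : ℝ) + r * (8 / 7) ^ (r - 1)) ^ r ≤
      T * ((M : ℝ) ^ r * (tmpl M r H).card)) (hpos : 0 < (tmpl M r H).card)
    (hw : T * (7 / 8) ≤ w ^ 2) (hw' : 7 / 8 ≤ w ^ 2)
    (hw1 : w ^ 2 ≤ 1) (L : V × V → Finset J) (hL : ∀ p : V × V, p.1 < p.2 → (L p).card = k)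
    (h1 : (Fintype.card V : ℝ) ^ 2 * (1 / (M : ℝ)) ^ k ≤ 1 / 2)
    (h2 : (Fintype.card V : ℝ) ^ r * k * (w ^ 2) ^ ((k - 1) * H) < 1 / 2) :
    ∃ c : V × V → J, (∀ p : V × V, p.1 < p.2 → c p ∈ L p) ∧
      ∀ K : Finset V, K.card = r → ∀ i, ¬ ∀ p ∈ eds K, c p = i := by
  classical
  obtain ⟨ω, hω1, hω2⟩ := exists_data hM hr2 hr hT hpos hw hw' hw1 L hL h1 h2
  have hch : ∀ p : V × V, ∃ j : J, p.1 < p.2 → (j ∈ L p ∧ (ω j).1 p.1 ≠ (ω j).1 p.2 ∧
      (good (ω j) p ∨ ∀ i ∈ L p, ¬ good (ω i) p)) := by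
    intro p
    by_cases hp : p.1 < p.2
    · by_cases hg : ∃ j ∈ L p, good (ω j) p
      · obtain ⟨j, hj, hj'⟩ := hg
        exact ⟨j, fun _ => ⟨hj, hj'.1, Or.inl hj'⟩⟩
      · obtain ⟨j, hj, hj'⟩ := hω1 p hp
        push Not at hg
        exact ⟨j, fun _ => ⟨hj, hj', Or.inr hg⟩⟩
    · exact ⟨Classical.arbitrary J, fun h => absurd h hp⟩
  choose c hc using hch
  refine ⟨c, fun p hp => (hc p hp).1, fun K hK i hi => ?_⟩
  have hsep : ∀ p ∈ eds K, (ω i).1 p.1 ≠ (ω i).1 p.2 := by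
    intro p hp
    have h3 := (hc p (mem_eds.1 hp).2.2).2.1
    rw [hi p hp] at h3
    exact h3
  have hinj : Set.InjOn (ω i).1 (K : Set V) := by
    intro x hx y hy hxy
    by_contra hne
    rcases lt_or_gt_of_ne hne with h | h
    · exact hsep (x, y) (mem_eds.2 ⟨hx, hy, h⟩) hxy
    · exact hsep (y, x) (mem_eds.2 ⟨hy, hx, h⟩) hxy.symm
  obtain ⟨p, hp, hng, j, hj, hg⟩ := hω2 K hK i (fun p hp => by
    have h3 := (hc p (mem_eds.1 hp).2.2).1
    rwa [hi p hp] at h3) hinj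
  have h3 := (hc p (mem_eds.1 hp).2.2).2.2
  rw [hi p hp] at h3
  rcases h3 with h3 | h3
  · exact hng h3
  · exact h3 j hj hg

end Pool.Agent.Lib.MP_ac7dff_co
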