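import Mathlib

/-!
# Templates

A template is a function `h : Sym2 (Fin M) → Fin 8` such that every set of `r` points contains less
than `H` pairs `e` with `h e = 0`.
-/

set_option autoImplicit false

namespace Pool.Agent.Lib.MP_ac7dff_co

open Finset

/-- The pairs of different elements of `T`. -/
def prs {M : ℕ} (T : Finset (Fin M)) : Finset (Sym2 (Fin M)) := T.offDiag.image Sym2.mk.uncurry

/-- Templates. -/
def tmpl (M r H : ℕ) : Finset (Sym2 (Fin M) → Fin 8) :=
  univ.filter fun h => ∀ T : Finset (Fin M), T.card = r → ((prs T).filter fun e => h e = 0).card < H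

/-- Functions with many zeros on `D`. -/
theorem card_zeros {E : Type*} [Fintype E] [DecidableEq E] (D : Finset E) {H : ℕ}
    (hD : D.card = 2 * H) :
    ((univ.filter fun h : E → Fin 8 => H ≤ (D.filter fun e => h e = 0).card).card : ℝ) ≤
      8 ^ Fintype.card E * (7 / 16) ^ H := by
  classical
  have h1 : ∑ h : E → Fin 8, (7 : ℝ) ^ (D.filter fun e => h e = 0).card =
      8 ^ Fintype.card E * (7 / 4) ^ D.card := by
    have e1 : ∀ h : E → Fin 8, (7 : ℝ) ^ (D.filter fun e => h e = 0).card =
        ∏ e : E, (if e ∈ D ∧ h e = 0 then (7 : ℝ) else 1) := by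
      intro h
      rw [← Finset.prod_const, Finset.prod_filter]
      rw [← Finset.prod_ite_mem_eq]
      refine Finset.prod_congr rfl fun e _ => ?_
      by_cases h1 : e ∈ D <;> by_cases h2 : h e = 0 <;> simp [h1, h2]
    rw [Finset.sum_congr rfl fun h _ => e1 h]
    have e2 := (Finset.prod_univ_sum (fun _ : E => (univ : Finset (Fin 8)))
      (fun (e : E) (c : Fin 8) => (if e ∈ D ∧ c = 0 then (7 : ℝ) else 1))).symm
    rw [Fintype.piFinset_univ] at e2
    rw [e2]
    have e3 : ∀ e : E, ∑ c : Fin 8, (if e ∈ D ∧ c = 0 then (7 : ℝ) else 1) =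
        8 * (if e ∈ D then 7 / 4 else 1) := by
      intro e
      by_cases he : e ∈ D
      · simp only [he, true_and, if_true]
        rw [Fin.sum_univ_eight]
        norm_num [Fin.ext_iff]
      · simp [he]
    rw [Finset.prod_congr rfl fun e _ => e3 e, Finset.prod_mul_distrib, Finset.prod_const,
      Finset.card_univ, Finset.prod_ite_mem, Finset.univ_inter, Finset.prod_const]
  have h2 : ((univ.filter fun h : E → Fin 8 => H ≤ (D.filter fun e => h e = 0).card).card : ℝ) *
      7 ^ H ≤ ∑ h : E → Fin 8, (7 : ℝ) ^ (D.filter fun e => h e = 0).card := by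
    rw [← nsmul_eq_mul, ← Finset.sum_const]
    refine (Finset.sum_le_sum fun h hh => ?_).trans
      (Finset.sum_le_univ_sum_of_nonneg fun h => by positivity)
    exact pow_le_pow_right₀ (by norm_num) (Finset.mem_filter.1 hh).2
  rw [h1, hD] at h2
  have h3 : (7 / 4 : ℝ) ^ (2 * H) = (7 / 16) ^ H * 7 ^ H := by
    rw [pow_mul, ← mul_pow]
    norm_num
  rw [h3, ← mul_assoc] at h2
  exact le_of_mul_le_mul_right h2 (by positivity)

/-- Most functions are templates. -/
theorem card_tmpl {M r H : ℕ} (hr : r.choose 2 = 2 * H) :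
    (8 : ℝ) ^ Fintype.card (Sym2 (Fin M)) * (1 - (M : ℝ) ^ r * (7 / 16) ^ H) ≤
      ((tmpl M r H).card : ℝ) := by
  classical
  have h1 : (univ \ tmpl M r H) ⊆ (powersetCard r (univ : Finset (Fin M))).biUnion fun T =>
      univ.filter fun h : Sym2 (Fin M) → Fin 8 => H ≤ ((prs T).filter fun e => h e = 0).card := by
    intro h hh
    rw [Finset.mem_sdiff, tmpl, Finset.mem_filter, not_and] at hh
    have h2 := hh.2 (Finset.mem_univ _)
    push Not at h2
    obtain ⟨T, hT, h3⟩ := h2
    exact Finset.mem_biUnion.2 ⟨T, Finset.mem_powersetCard.2 ⟨Finset.subset_univ _, hT⟩,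
      Finset.mem_filter.2 ⟨Finset.mem_univ _, h3⟩⟩
  have h2 : ((univ \ tmpl M r H).card : ℝ) ≤
      (M : ℝ) ^ r * (8 ^ Fintype.card (Sym2 (Fin M)) * (7 / 16) ^ H) := by
    calc ((univ \ tmpl M r H).card : ℝ)
        ≤ ∑ T ∈ powersetCard r (univ : Finset (Fin M)), ((univ.filter fun h : Sym2 (Fin M) → Fin 8 =>
            H ≤ ((prs T).filter fun e => h e = 0).card).card : ℝ) := by
          exact_mod_cast (Finset.card_le_card h1).trans Finset.card_biUnion_le
      _ ≤ ∑ _T ∈ powersetCard r (univ : Finset (Fin M)),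
            (8 : ℝ) ^ Fintype.card (Sym2 (Fin M)) * (7 / 16) ^ H := by
          refine Finset.sum_le_sum fun T hT => card_zeros _ ?_
          rw [prs, Sym2.card_image_offDiag, (Finset.mem_powersetCard.1 hT).2, hr]
      _ ≤ _ := by
          rw [Finset.sum_const, nsmul_eq_mul, Finset.card_powersetCard, Finset.card_univ,
            Fintype.card_fin]
          refine mul_le_mul_of_nonneg_right ?_ (by positivity)
          exact_mod_cast Nat.choose_le_pow M r
  have h3 : ((univ \ tmpl M r H).card : ℝ) + ((tmpl M r H).card : ℝ) =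
      8 ^ Fintype.card (Sym2 (Fin M)) := by
    have h4 := Finset.card_sdiff_add_card_eq_card (Finset.subset_univ (tmpl M r H))
    rw [Finset.card_univ, Fintype.card_fun, Fintype.card_fin] at h4
    exact_mod_cast h4
  nlinarith

end Pool.Agent.Lib.MP_ac7dff_co
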