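import Pool.Agent.Lib.MP_ac7dff_co.Fail
import Pool.Agent.Lib.MP_ac7dff_co.Tmpl

/-!
# Independent data for all the colours

`Om V M r H`: a map `ψ : V → Fin M` and a template `h`. Every colour gets an element of `Om`.
-/

set_option autoImplicit false

namespace Pool.Agent.Lib.MP_ac7dff_co

open Finset

/-- The data of a colour. -/
abbrev Om (V : Type) (M r H : ℕ) : Type := (V → Fin M) × {h // h ∈ tmpl M r H}

/-- The colour with data `ω` is good for the edge `p`. -/
def good {V : Type} {M r H : ℕ} (ω : Om V M r H) (p : V × V) : Prop :=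
  ω.1 p.1 ≠ ω.1 p.2 ∧ ω.2.1 s(ω.1 p.1, ω.1 p.2) = 0

/-- The edges of the complete graph on `K`. -/
def eds {V : Type} [LinearOrder V] (K : Finset V) : Finset (V × V) :=
  (K ×ˢ K).filter fun p => p.1 < p.2

section lemmas

variable {V : Type} [Fintype V] [LinearOrder V] {M r H : ℕ}

omit [Fintype V] in
theorem mem_eds {K : Finset V} {p : V × V} : p ∈ eds K ↔ p.1 ∈ K ∧ p.2 ∈ K ∧ p.1 < p.2 := by
  rw [eds, Finset.mem_filter, Finset.mem_product, and_assoc]

omit [Fintype V] in
theorem card_eds (K : Finset V) : (eds K).card = K.card.choose 2 := by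
  classical
  rw [← Sym2.card_image_offDiag]
  have h1 : K.offDiag.image Sym2.mk.uncurry = (eds K).image fun p => s(p.1, p.2) := by
    ext e
    rw [Finset.mem_image, Finset.mem_image]
    constructor
    · rintro ⟨⟨a, b⟩, hab, rfl⟩
      rw [Finset.mem_offDiag] at hab
      rcases lt_or_gt_of_ne hab.2.2 with h | h
      · exact ⟨(a, b), mem_eds.2 ⟨hab.1, hab.2.1, h⟩, rfl⟩
      · exact ⟨(b, a), mem_eds.2 ⟨hab.2.1, hab.1, h⟩, Sym2.eq_swap⟩
    · rintro ⟨p, hp, rfl⟩
      rw [mem_eds] at hp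
      exact ⟨p, Finset.mem_offDiag.2 ⟨hp.1, hp.2.1, hp.2.2.ne⟩, rfl⟩
  rw [h1, Finset.card_image_of_injOn]
  intro p hp q hq hpq
  rw [Finset.mem_coe, mem_eds] at hp hq
  rcases Sym2.eq_iff.1 hpq with ⟨e1, e2⟩ | ⟨e1, e2⟩
  · exact Prod.ext e1 e2
  · have hp3 := hp.2.2
    rw [e1, e2] at hp3
    exact absurd hp3 (lt_asymm hq.2.2)

theorem card_Om : (Fintype.card (Om V M r H) : ℝ) = (M : ℝ) ^ Fintype.card V * (tmpl M r H).card := by
  rw [Fintype.card_prod, Fintype.card_fun, Fintype.card_fin, Fintype.card_coe]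
  push_cast
  rfl

open Classical in
/-- Failure of all the edges of `F`. -/
theorem fail_le (hM : 0 < M) {T : ℝ} {K : Finset V}
    (hT : 8 ^ Fintype.card (Sym2 (Fin M)) * ((M : ℝ) + K.card * (8 / 7) ^ (K.card - 1)) ^ K.card ≤
      T * ((M : ℝ) ^ K.card * (tmpl M r H).card)) (F : Finset (V × V)) (hF : F ⊆ eds K) :
    ((univ.filter fun ω : Om V M r H => ∀ p ∈ F, ¬ good ω p).card : ℝ) ≤
      T * (7 / 8) ^ F.card * Fintype.card (Om V M r H) := by
  have h1 : (univ.filter fun ω : Om V M r H => ∀ p ∈ F, ¬ good ω p).card ≤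
      (univ.filter fun ω : (V → Fin M) × (Sym2 (Fin M) → Fin 8) =>
      ∀ p ∈ F, ¬ (ω.1 p.1 ≠ ω.1 p.2 ∧ ω.2 s(ω.1 p.1, ω.1 p.2) = 0)).card := by
    refine Finset.card_le_card_of_injOn (fun ω => (ω.1, ω.2.1)) ?_ ?_
    · intro ω hω
      rw [Finset.mem_coe, Finset.mem_filter] at hω ⊢
      exact ⟨Finset.mem_univ _, hω.2⟩
    · intro ω _ ω' _ h
      have h' : (ω.1, ω.2.1) = (ω'.1, ω'.2.1) := h
      exact Prod.ext (Prod.mk.inj h').1 (Subtype.ext (Prod.mk.inj h').2)
  have h2 := card_fail (M := M) K F fun p hp => mem_eds.1 (hF hp)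
  have hMr : (0 : ℝ) < (M : ℝ) ^ K.card := by positivity
  have h3 : (M : ℝ) ^ K.card * ((univ.filter fun ω : Om V M r H => ∀ p ∈ F, ¬ good ω p).card : ℝ) ≤
      (M : ℝ) ^ K.card * (T * (7 / 8) ^ F.card * Fintype.card (Om V M r H)) := by
    calc (M : ℝ) ^ K.card * ((univ.filter fun ω : Om V M r H => ∀ p ∈ F, ¬ good ω p).card : ℝ)
        ≤ (M : ℝ) ^ K.card * ((univ.filter fun ω : (V → Fin M) × (Sym2 (Fin M) → Fin 8) =>
          ∀ p ∈ F, ¬ (ω.1 p.1 ≠ ω.1 p.2 ∧ ω.2 s(ω.1 p.1, ω.1 p.2) = 0)).card : ℝ) :=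
          mul_le_mul_of_nonneg_left (by exact_mod_cast h1) hMr.le
      _ ≤ _ := h2
      _ = (7 / 8) ^ F.card * (M : ℝ) ^ Fintype.card V * (8 ^ Fintype.card (Sym2 (Fin M)) *
            ((M : ℝ) + K.card * (8 / 7) ^ (K.card - 1)) ^ K.card) := by ring
      _ ≤ (7 / 8) ^ F.card * (M : ℝ) ^ Fintype.card V *
            (T * ((M : ℝ) ^ K.card * (tmpl M r H).card)) :=
          mul_le_mul_of_nonneg_left hT (by positivity)
      _ = _ := by
          rw [card_Om]
          ring
  exact le_of_mul_le_mul_left h3 hMr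

open Classical in
theorem fail_le' (hM : 0 < M) {T w : ℝ} {K : Finset V}
    (hT : 8 ^ Fintype.card (Sym2 (Fin M)) * ((M : ℝ) + K.card * (8 / 7) ^ (K.card - 1)) ^ K.card ≤
      T * ((M : ℝ) ^ K.card * (tmpl M r H).card)) (hw : T * (7 / 8) ≤ w ^ 2) (hw' : 7 / 8 ≤ w ^ 2)
    (F : Finset (V × V)) (hF : F ⊆ eds K) :
    ((univ.filter fun ω : Om V M r H => ∀ p ∈ F, ¬ good ω p).card : ℝ) ≤
      (w ^ 2) ^ F.card * Fintype.card (Om V M r H) := by
  rcases Nat.eq_zero_or_pos F.card with h0 | h0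
  · rw [h0, pow_zero, one_mul]
    exact_mod_cast Finset.card_le_univ _
  · refine (fail_le hM hT F hF).trans (mul_le_mul_of_nonneg_right ?_ (by positivity))
    obtain ⟨f, hf⟩ := Nat.exists_eq_succ_of_ne_zero h0.ne'
    rw [hf, Nat.succ_eq_add_one, pow_succ, pow_succ]
    calc T * ((7 / 8) ^ f * (7 / 8)) = (T * (7 / 8)) * (7 / 8) ^ f := by ring
      _ ≤ w ^ 2 * (w ^ 2) ^ f := by
          refine mul_le_mul hw (pow_le_pow_left₀ (by norm_num) hw' _) (by positivity) (by positivity)
      _ = (w ^ 2) ^ f * w ^ 2 := mul_comm _ _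

open Classical in
/-- At least `H` edges are bad. -/
theorem card_bad (hr : r.choose 2 = 2 * H) (ω : Om V M r H) {K : Finset V} (hK : K.card = r)
    (hinj : Set.InjOn ω.1 (K : Set V)) : H ≤ ((eds K).filter fun p => ¬ good ω p).card := by
  have h1 : ((eds K).filter fun p => good ω p).card < H := by
    have h2 := (Finset.mem_filter.1 ω.2.2).2 (K.image ω.1) (by
      rw [Finset.card_image_of_injOn hinj, hK])
    refine lt_of_le_of_lt ?_ h2
    refine Finset.card_le_card_of_injOn (fun p => s(ω.1 p.1, ω.1 p.2)) ?_ ?_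
    · intro p hp
      rw [Finset.mem_coe, Finset.mem_filter, mem_eds] at hp
      rw [Finset.mem_coe, Finset.mem_filter]
      refine ⟨?_, hp.2.2⟩
      rw [prs, Finset.mem_image]
      refine ⟨(ω.1 p.1, ω.1 p.2), Finset.mem_offDiag.2 ⟨?_, ?_, hp.2.1⟩, rfl⟩
      · exact Finset.mem_image_of_mem _ hp.1.1
      · exact Finset.mem_image_of_mem _ hp.1.2.1
    · intro p hp q hq hpq
      rw [Finset.mem_coe, Finset.mem_filter, mem_eds] at hp hq
      rcases Sym2.eq_iff.1 hpq with ⟨e1, e2⟩ | ⟨e1, e2⟩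
      · exact Prod.ext (hinj hp.1.1 hq.1.1 e1) (hinj hp.1.2.1 hq.1.2.1 e2)
      · have hp3 := hp.1.2.2
        rw [hinj hp.1.1 hq.1.2.1 e1, hinj hp.1.2.1 hq.1.1 e2] at hp3
        exact absurd hp3 (lt_asymm hq.1.2.2)
  have h3 := Finset.card_filter_add_card_filter_not (s := eds K) (fun p => good ω p)
  rw [card_eds, hK, hr] at h3
  omega

end lemmas

/-- Boxes in a product space. -/
theorem card_box {J Ω : Type} [Fintype J] [DecidableEq J] [Fintype Ω] [DecidableEq Ω]
    (S : J → Finset Ω) (c : J → ℝ) (h : ∀ j, ((S j).card : ℝ) ≤ c j * Fintype.card Ω) :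
    ((univ.filter fun ω : J → Ω => ∀ j, ω j ∈ S j).card : ℝ) ≤
      (∏ j, c j) * (Fintype.card Ω : ℝ) ^ Fintype.card J := by
  have h1 : (univ.filter fun ω : J → Ω => ∀ j, ω j ∈ S j) = Fintype.piFinset S := by
    ext ω
    rw [Finset.mem_filter, Fintype.mem_piFinset]
    exact ⟨fun h => h.2, fun h => ⟨Finset.mem_univ _, h⟩⟩
  rw [h1, Fintype.card_piFinset, Nat.cast_prod]
  calc ∏ j, ((S j).card : ℝ) ≤ ∏ j, (c j * Fintype.card Ω) :=
        Finset.prod_le_prod (fun j _ => Nat.cast_nonneg _) fun j _ => h j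
    _ = _ := by
        rw [Finset.prod_mul_distrib, Finset.prod_const, Finset.card_univ]

section main

variable {V : Type} [Fintype V] [LinearOrder V] {M r H : ℕ} {J : Type} [Fintype J] [DecidableEq J]

open Classical in
/-- All the colours of the list `l` are constant on the edge `p`. -/
theorem bad_one (hM : 0 < M) {x y : V} (hxy : x ≠ y) (l : Finset J) :
    ((univ.filter fun ω : J → Om V M r H => ∀ j ∈ l, (ω j).1 x = (ω j).1 y).card : ℝ) ≤
      (1 / (M : ℝ)) ^ l.card * (Fintype.card (Om V M r H) : ℝ) ^ Fintype.card J := by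
  have h1 : ((univ.filter fun a : Om V M r H => a.1 x = a.1 y).card : ℝ) =
      1 / (M : ℝ) * Fintype.card (Om V M r H) := by
    have h2 : (univ.filter fun a : Om V M r H => a.1 x = a.1 y) =
        (univ.filter fun ψ : V → Fin M => ψ x = ψ y) ×ˢ univ := by
      ext a
      simp
    rw [h2, Finset.card_product, Finset.card_univ, Fintype.card_coe, card_Om]
    push_cast
    have h3 := coll_two (M := M) hxy
    have hM' : (M : ℝ) ≠ 0 := by positivity
    field_simp
    rw [← h3]
    ring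
  have h2 := card_box (J := J) (fun j => if j ∈ l then
    (univ.filter fun a : Om V M r H => a.1 x = a.1 y) else univ)
    (fun j => if j ∈ l then 1 / (M : ℝ) else 1) (by
      intro j
      split_ifs with hj
      · exact h1.le
      · rw [Finset.card_univ, one_mul])
  rw [Finset.prod_ite_mem, Finset.univ_inter, Finset.prod_const] at h2
  refine le_trans ?_ h2
  norm_cast
  refine Finset.card_le_card fun ω hω => ?_
  rw [Finset.mem_filter] at hω ⊢
  refine ⟨Finset.mem_univ _, fun j => ?_⟩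
  split_ifs with hj
  · exact Finset.mem_filter.2 ⟨Finset.mem_univ _, hω.2 j hj⟩
  · exact Finset.mem_univ _

open Classical in
/-- The set `K` and the colour `i`. -/
theorem bad_two (hM : 0 < M) (hr : r.choose 2 = 2 * H) {T w : ℝ} {K : Finset V} (hK : K.card = r)
    (hT : 8 ^ Fintype.card (Sym2 (Fin M)) * ((M : ℝ) + r * (8 / 7) ^ (r - 1)) ^ r ≤
      T * ((M : ℝ) ^ r * (tmpl M r H).card)) (hw : T * (7 / 8) ≤ w ^ 2) (hw' : 7 / 8 ≤ w ^ 2)
    (hw1 : w ^ 2 ≤ 1) {k : ℕ} (i : J) (L : V × V → Finset J)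
    (hL : ∀ p ∈ eds K, (L p).card = k ∧ i ∈ L p) :
    ((univ.filter fun ω : J → Om V M r H => Set.InjOn (ω i).1 (K : Set V) ∧
      ∀ p ∈ eds K, good (ω i) p ∨ ∀ j ∈ L p, ¬ good (ω j) p).card : ℝ) ≤
      (w ^ 2) ^ ((k - 1) * H) * (Fintype.card (Om V M r H) : ℝ) ^ Fintype.card J := by
  set N : ℝ := (Fintype.card (Om V M r H) : ℝ) with hN
  set B : Om V M r H → Finset (V × V) := fun a => (eds K).filter fun p => ¬ good a p with hB
  set S : Om V M r H → J → Finset (Om V M r H) := fun a j => if j = i then {a} else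
    univ.filter fun b => ∀ p ∈ (B a).filter fun p => j ∈ L p, ¬ good b p with hS
  have hsub : (univ.filter fun ω : J → Om V M r H => Set.InjOn (ω i).1 (K : Set V) ∧
      ∀ p ∈ eds K, good (ω i) p ∨ ∀ j ∈ L p, ¬ good (ω j) p) ⊆
      (univ.filter fun a : Om V M r H => Set.InjOn a.1 (K : Set V)).biUnion fun a =>
        univ.filter fun ω : J → Om V M r H => ∀ j, ω j ∈ S a j := by
    intro ω hω
    rw [Finset.mem_filter] at hω
    rw [Finset.mem_biUnion]
    refine ⟨ω i, Finset.mem_filter.2 ⟨Finset.mem_univ _, hω.2.1⟩,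
      Finset.mem_filter.2 ⟨Finset.mem_univ _, fun j => ?_⟩⟩
    by_cases hj : j = i
    · subst hj
      simp [hS]
    · simp only [hS, if_neg hj]
      refine Finset.mem_filter.2 ⟨Finset.mem_univ _, fun p hp => ?_⟩
      rw [Finset.mem_filter, hB, Finset.mem_filter] at hp
      exact (hω.2.2 p hp.1.1).resolve_left hp.1.2 j hp.2
  have hbox : ∀ a ∈ univ.filter fun a : Om V M r H => Set.InjOn a.1 (K : Set V),
      ((univ.filter fun ω : J → Om V M r H => ∀ j, ω j ∈ S a j).card : ℝ) ≤
        1 / N * ((w ^ 2) ^ ((k - 1) * H) * N ^ Fintype.card J) := by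
    intro a ha
    have hainj := (Finset.mem_filter.1 ha).2
    have hNpos : 0 < N := by
      have : Nonempty (Om V M r H) := ⟨a⟩
      rw [hN]
      exact_mod_cast Fintype.card_pos
    have h1 := card_box (S a) (fun j => if j = i then 1 / N else
      (w ^ 2) ^ ((B a).filter fun p => j ∈ L p).card) (by
        intro j
        by_cases hj : j = i
        · simp only [hS, if_pos hj, Finset.card_singleton]
          rw [← hN]
          field_simp
          norm_num
        · simp only [hS, if_neg hj]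
          refine fail_le' hM (K := K) (by rw [hK]; exact hT) hw hw' _ ?_
          exact (Finset.filter_subset _ _).trans (Finset.filter_subset _ _))
    refine h1.trans ?_
    rw [← hN, ← mul_assoc]
    refine mul_le_mul_of_nonneg_right ?_ (by positivity)
    have h2 : ∏ j, (if j = i then 1 / N else (w ^ 2) ^ ((B a).filter fun p => j ∈ L p).card) =
        1 / N * ∏ j ∈ univ.erase i, (w ^ 2) ^ ((B a).filter fun p => j ∈ L p).card := by
      rw [← Finset.mul_prod_erase univ _ (Finset.mem_univ i), if_pos rfl]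
      congr 1
      refine Finset.prod_congr rfl fun j hj => ?_
      rw [if_neg (Finset.ne_of_mem_erase hj)]
    rw [h2, Finset.prod_pow_eq_pow_sum]
    refine mul_le_mul_of_nonneg_left ?_ (by positivity)
    refine pow_le_pow_of_le_one (by positivity) hw1 ?_
    have h3 : ∑ j ∈ univ.erase i, ((B a).filter fun p => j ∈ L p).card = (k - 1) * (B a).card := by
      have h4 : ∑ j ∈ univ.erase i, ((B a).filter fun p => j ∈ L p).card =
          ∑ p ∈ B a, ((univ.erase i).filter fun j => j ∈ L p).card := by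
        simp only [Finset.card_filter]
        exact Finset.sum_comm
      rw [h4, mul_comm, ← smul_eq_mul, ← Finset.sum_const]
      refine Finset.sum_congr rfl fun p hp => ?_
      obtain ⟨h5, h6⟩ := hL p (Finset.mem_of_mem_filter p hp)
      have h7 : (univ.erase i).filter (fun j => j ∈ L p) = (L p).erase i := by
        ext j
        simp [Finset.mem_erase, and_comm]
      rw [h7, Finset.card_erase_of_mem h6, h5]
    rw [h3]
    exact Nat.mul_le_mul_left _ (card_bad hr a hK hainj)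
  calc ((univ.filter fun ω : J → Om V M r H => Set.InjOn (ω i).1 (K : Set V) ∧
      ∀ p ∈ eds K, good (ω i) p ∨ ∀ j ∈ L p, ¬ good (ω j) p).card : ℝ)
      ≤ ∑ a ∈ univ.filter fun a : Om V M r H => Set.InjOn a.1 (K : Set V),
        ((univ.filter fun ω : J → Om V M r H => ∀ j, ω j ∈ S a j).card : ℝ) := by
        exact_mod_cast (Finset.card_le_card hsub).trans Finset.card_biUnion_le
    _ ≤ ∑ _a ∈ univ.filter fun a : Om V M r H => Set.InjOn a.1 (K : Set V),
        1 / N * ((w ^ 2) ^ ((k - 1) * H) * N ^ Fintype.card J) := Finset.sum_le_sum hbox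
    _ ≤ N * (1 / N * ((w ^ 2) ^ ((k - 1) * H) * N ^ Fintype.card J)) := by
        rw [Finset.sum_const, nsmul_eq_mul]
        refine mul_le_mul_of_nonneg_right ?_ (by positivity)
        rw [hN]
        exact_mod_cast Finset.card_le_univ _
    _ ≤ (w ^ 2) ^ ((k - 1) * H) * N ^ Fintype.card J := by
        rcases eq_or_ne N 0 with h0 | h0
        · rw [h0, zero_mul]
          positivity
        · rw [← mul_assoc, mul_one_div_cancel h0, one_mul]

end main

end Pool.Agent.Lib.MP_ac7dff_co
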