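import Mathlib

/-!
# Few vertices

For `n ≤ q ^ k` there is a list colouring without monochromatic complete graphs on `q + 1` vertices.
-/

set_option autoImplicit false

namespace Pool.Agent.Lib.MP_ac7dff_co

/-- One more vertex: a function which differs from each `f j`, `j < m`, on some element of
`S j`. -/
theorem extend {q k : ℕ} (hq : 1 ≤ q) (m : ℕ) (hm : m < q ^ k) (S : ℕ → Finset ℕ)
    (hS : ∀ j < m, (S j).card = k) (f : ℕ → ℕ → Fin q) :
    ∃ g : ℕ → Fin q, ∀ j < m, ∃ c ∈ S j, f j c ≠ g c := by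
  classical
  set P : Finset ℕ := (Finset.range m).biUnion S with hP
  have hsub : ∀ j < m, S j ⊆ P := fun j hj =>
    Finset.subset_biUnion_of_mem S (Finset.mem_range.2 hj)
  set bad : ℕ → Finset (P → Fin q) := fun j =>
    Finset.univ.filter (fun g => ∀ c : P, c.1 ∈ S j → g c = f j c.1) with hbad
  have hcard : ∀ j < m, (bad j).card * q ^ k ≤ q ^ P.card := by
    intro j hj
    have h1 : (bad j).card ≤ q ^ (P \ S j).card := by
      have h2 : (bad j).card ≤ (Finset.univ : Finset (↥(P \ S j) → Fin q)).card := by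
        refine Finset.card_le_card_of_injOn
          (fun g c => g ⟨c.1, (Finset.mem_sdiff.1 c.2).1⟩) (fun _ _ => Finset.mem_coe.2 (Finset.mem_univ _)) ?_
        intro g hg g' hg' hgg'
        have hg1 := (Finset.mem_filter.1 (Finset.mem_coe.1 hg)).2
        have hg2 := (Finset.mem_filter.1 (Finset.mem_coe.1 hg')).2
        funext c
        by_cases hc : c.1 ∈ S j
        · rw [hg1 c hc, hg2 c hc]
        · exact congrFun hgg' ⟨c.1, Finset.mem_sdiff.2 ⟨c.2, hc⟩⟩
      simpa using h2
    calc (bad j).card * q ^ k ≤ q ^ (P \ S j).card * q ^ (S j).card := by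
          rw [hS j hj]
          exact Nat.mul_le_mul_right _ h1
      _ = q ^ P.card := by
          rw [← pow_add, Finset.card_sdiff_add_card_eq_card (hsub j hj)]
  have hex : ∃ g : P → Fin q, g ∉ (Finset.range m).biUnion bad := by
    by_contra hcon
    push Not at hcon
    have h1 : (Finset.univ : Finset (P → Fin q)) ⊆ (Finset.range m).biUnion bad :=
      fun g _ => hcon g
    have h2 : q ^ P.card ≤ ∑ j ∈ Finset.range m, (bad j).card := by
      have h3 := (Finset.card_le_card h1).trans Finset.card_biUnion_le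
      simpa using h3
    have h4 : q ^ P.card * q ^ k ≤ m * q ^ P.card := by
      calc q ^ P.card * q ^ k ≤ (∑ j ∈ Finset.range m, (bad j).card) * q ^ k :=
            Nat.mul_le_mul_right _ h2
        _ = ∑ j ∈ Finset.range m, (bad j).card * q ^ k := Finset.sum_mul _ _ _
        _ ≤ ∑ _j ∈ Finset.range m, q ^ P.card :=
            Finset.sum_le_sum fun j hj => hcard j (Finset.mem_range.1 hj)
        _ = m * q ^ P.card := by simp
    have h5 : 0 < q ^ P.card := pow_pos (by omega) _
    have h6 : m * q ^ P.card < q ^ P.card * q ^ k := by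
      rw [mul_comm]
      exact Nat.mul_lt_mul_of_pos_left hm h5
    omega
  obtain ⟨g, hg⟩ := hex
  refine ⟨fun c => if h : c ∈ P then g ⟨c, h⟩ else ⟨0, by omega⟩, fun j hj => ?_⟩
  by_contra hcon
  push Not at hcon
  apply hg
  rw [Finset.mem_biUnion]
  refine ⟨j, Finset.mem_range.2 hj, Finset.mem_filter.2 ⟨Finset.mem_univ _, fun c hc => ?_⟩⟩
  have h := hcon c.1 hc
  rw [dif_pos c.2] at h
  exact h.symm

/-- The maps: for every pair of vertices some colour of the list separates them. -/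
theorem exists_maps {q k : ℕ} (hq : 1 ≤ q) (n : ℕ) (hn : n ≤ q ^ k) (L : ℕ → ℕ → Finset ℕ)
    (hL : ∀ x y, x < y → y < n → (L x y).card = k) :
    ∃ f : ℕ → ℕ → Fin q, ∀ x y, x < y → y < n → ∃ c ∈ L x y, f x c ≠ f y c := by
  classical
  have key : ∀ m ≤ n, ∃ f : ℕ → ℕ → Fin q, ∀ x y, x < y → y < m → ∃ c ∈ L x y, f x c ≠ f y c := by
    intro m
    induction m with
    | zero =>
      intro _
      exact ⟨fun _ _ => ⟨0, by omega⟩, fun x y _ h => absurd h (Nat.not_lt_zero _)⟩
    | succ m ih =>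
      intro hm
      obtain ⟨f, hf⟩ := ih (by omega)
      obtain ⟨g, hg⟩ := extend hq m (by omega) (fun j => L j m)
        (fun j hj => hL j m hj (by omega)) f
      refine ⟨fun x => if x = m then g else f x, fun x y hxy hy => ?_⟩
      have hx : x ≠ m := by omega
      by_cases hym : y = m
      · subst hym
        obtain ⟨c, hc, h⟩ := hg x hxy
        exact ⟨c, hc, by simpa [hx] using h⟩
      · obtain ⟨c, hc, h⟩ := hf x y hxy (by omega)
        exact ⟨c, hc, by simpa [hx, hym] using h⟩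
  exact key n le_rfl

/-- Few vertices. -/
theorem small {q k n r : ℕ} (hq : 1 ≤ q) (hr : q < r) (hn : n ≤ q ^ k)
    (L : Fin n → Fin n → Finset ℕ) (hL : ∀ x y, x < y → (L x y).card = k) :
    ∃ c : Fin n → Fin n → ℕ, (∀ x y, x < y → c x y ∈ L x y) ∧
      ∀ K : Finset (Fin n), K.card = r → ∀ i, ¬ ∀ x ∈ K, ∀ y ∈ K, x < y → c x y = i := by
  classical
  obtain ⟨f, hf⟩ := exists_maps hq n hn
    (fun x y => if h : x < n ∧ y < n then L ⟨x, h.1⟩ ⟨y, h.2⟩ else ∅) (by
      intro x y hxy hy
      rw [dif_pos ⟨by omega, hy⟩]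
      exact hL _ _ hxy)
  have hf' : ∀ x y : Fin n, ∃ a, x < y → (a ∈ L x y ∧ f x a ≠ f y a) := by
    intro x y
    by_cases hxy : x < y
    · obtain ⟨a, ha, h⟩ := hf x y hxy y.2
      rw [dif_pos ⟨x.2, y.2⟩] at ha
      exact ⟨a, fun _ => ⟨ha, h⟩⟩
    · exact ⟨0, fun h => absurd h hxy⟩
  choose c hc using hf'
  refine ⟨c, fun x y hxy => (hc x y hxy).1, fun K hK i hi => ?_⟩
  have hinj : Set.InjOn (fun x : Fin n => f x i) (K : Set (Fin n)) := by
    intro x hx y hy hxy
    by_contra hne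
    rcases lt_or_gt_of_ne hne with h | h
    · have h1 := (hc x y h).2
      rw [hi x hx y hy h] at h1
      exact h1 hxy
    · have h1 := (hc y x h).2
      rw [hi y hy x hx h] at h1
      exact h1 hxy.symm
  have h1 := Finset.card_le_card_of_injOn (t := (Finset.univ : Finset (Fin q)))
    (fun x : Fin n => f x i) (fun _ _ => Finset.mem_coe.2 (Finset.mem_univ _)) hinj
  rw [Finset.card_univ, Fintype.card_fin, hK] at h1
  omega

/-- The numbers for `r < 384`. -/
theorem small_num {r : ℕ} (hr : 3 ≤ r) (hr' : r < 384) : 2 ^ r ≤ (r - 1) ^ 48 := by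
  rcases Nat.lt_or_ge r 49 with h | h
  · calc 2 ^ r ≤ 2 ^ 48 := Nat.pow_le_pow_right (by norm_num) (by omega)
      _ ≤ (r - 1) ^ 48 := Nat.pow_le_pow_left (by omega) _
  · rcases Nat.lt_or_ge r 265 with h' | h'
    · calc 2 ^ r ≤ 2 ^ (11 * 24) := Nat.pow_le_pow_right (by norm_num) (by omega)
        _ = (2 ^ 11) ^ 24 := pow_mul _ _ _
        _ ≤ (48 ^ 2) ^ 24 := Nat.pow_le_pow_left (by norm_num) _
        _ = 48 ^ 48 := by rw [← pow_mul]
        _ ≤ (r - 1) ^ 48 := Nat.pow_le_pow_left (by omega) _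
    · calc 2 ^ r ≤ 2 ^ (8 * 48) := Nat.pow_le_pow_right (by norm_num) (by omega)
        _ = (2 ^ 8) ^ 48 := pow_mul _ _ _
        _ ≤ (r - 1) ^ 48 := Nat.pow_le_pow_left (by omega) _

end Pool.Agent.Lib.MP_ac7dff_co
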