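import Mathlib

/-!
# The upper bound of Erdős and Szekeres

Every colouring of the edges of the complete graph on `k ^ (k * (r - 1))` vertices with `k` colours
has a monochromatic complete subgraph on `r` vertices.
-/

set_option autoImplicit false

namespace Pool.Agent.Lib.MP_ac7dff_co

open Finset

/-- A set in which the colour of an edge depends only on its smaller end. -/
theorem exists_end {k N : ℕ} (hk : 2 ≤ k) (c : Fin N → Fin N → ℕ) (hc : ∀ x y, x < y → c x y < k)
    (m : ℕ) (A : Finset (Fin N)) (hA : k ^ m ≤ A.card) :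
    ∃ B ⊆ A, B.card = m + 1 ∧ ∃ f : Fin N → ℕ, (∀ x, f x < k) ∧
      ∀ x ∈ B, ∀ y ∈ B, x < y → c x y = f x := by
  classical
  induction m generalizing A with
  | zero =>
    rw [pow_zero] at hA
    obtain ⟨a, ha⟩ := Finset.card_pos.1 hA
    refine ⟨{a}, Finset.singleton_subset_iff.2 ha, Finset.card_singleton a, fun _ => 0,
      fun _ => lt_of_lt_of_le (by norm_num) hk, fun x hx y hy hxy => ?_⟩
    rw [Finset.mem_singleton] at hx hy
    rw [hx, hy] at hxy
    exact absurd hxy (lt_irrefl _)
  | succ m ih =>
    have hpos : 0 < k ^ m := pow_pos (by omega) _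
    have hne : A.Nonempty := Finset.card_pos.1 (lt_of_lt_of_le (pow_pos (by omega) _) hA)
    set a := A.min' hne with ha
    have haA : a ∈ A := Finset.min'_mem A hne
    have hlt : ∀ y ∈ A.erase a, a < y := fun y hy =>
      lt_of_le_of_ne (Finset.min'_le A y (Finset.mem_of_mem_erase hy))
        (Finset.ne_of_mem_erase hy).symm
    have h1 : (Finset.range k).card * (k ^ m - 1) < (A.erase a).card := by
      rw [Finset.card_range, Finset.card_erase_of_mem haA]
      have h2 : k * (k ^ m - 1) + k = k ^ (m + 1) := by
        obtain ⟨t, ht⟩ := Nat.exists_eq_succ_of_ne_zero hpos.ne'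
        rw [pow_succ, ht]
        simp only [Nat.succ_eq_add_one, Nat.add_sub_cancel]
        ring
      omega
    obtain ⟨i, hi, hi'⟩ := Finset.exists_lt_card_fiber_of_mul_lt_card_of_maps_to
      (f := fun y => c a y) (fun y hy => Finset.mem_range.2 (hc a y (hlt y hy))) h1
    obtain ⟨B, hB, hBc, f, hf, hf'⟩ := ih ((A.erase a).filter fun y => c a y = i) (by omega)
    have haB : a ∉ B := fun h => by
      have := Finset.mem_of_mem_filter _ (hB h)
      exact Finset.ne_of_mem_erase this rfl
    refine ⟨insert a B, ?_, ?_, fun x => if x = a then i else f x, ?_, ?_⟩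
    · intro x hx
      rcases Finset.mem_insert.1 hx with h | h
      · rw [h]
        exact haA
      · exact Finset.mem_of_mem_erase (Finset.mem_of_mem_filter _ (hB h))
    · rw [Finset.card_insert_of_notMem haB, hBc]
    · intro x
      by_cases h : x = a
      · simp only [if_pos h]
        exact Finset.mem_range.1 hi
      · simp only [if_neg h]
        exact hf x
    · intro x hx y hy hxy
      rcases Finset.mem_insert.1 hx with h | h
      · simp only [if_pos h]
        rcases Finset.mem_insert.1 hy with h' | h'
        · rw [h, h'] at hxy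
          exact absurd hxy (lt_irrefl _)
        · rw [h]
          exact (Finset.mem_filter.1 (hB h')).2
      · have hxa : x ≠ a := fun e => haB (e ▸ h)
        simp only [if_neg hxa]
        rcases Finset.mem_insert.1 hy with h' | h'
        · have h3 := hlt x (Finset.mem_of_mem_filter _ (hB h))
          rw [h'] at hxy
          exact absurd hxy (lt_asymm h3)
        · exact hf' x h y h' hxy

/-- The upper bound. -/
theorem upper {k r N : ℕ} (hk : 2 ≤ k) (hr : 1 ≤ r) (hN : k ^ (k * (r - 1)) ≤ N)
    (c : Fin N → Fin N → ℕ) (hc : ∀ x y, x < y → c x y < k) :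
    ∃ S : Finset (Fin N), S.card = r ∧ ∃ i, ∀ x ∈ S, ∀ y ∈ S, x < y → c x y = i := by
  classical
  obtain ⟨B, -, hB, f, hf, hf'⟩ := exists_end hk c hc (k * (r - 1)) Finset.univ (by
    rw [Finset.card_univ, Fintype.card_fin]
    exact hN)
  obtain ⟨i, -, hi⟩ := Finset.exists_lt_card_fiber_of_mul_lt_card_of_maps_to
    (s := B) (t := Finset.range k) (n := r - 1) (f := f)
    (fun x _ => Finset.mem_range.2 (hf x)) (by
      rw [Finset.card_range, hB]
      omega)
  obtain ⟨S, hS, hSc⟩ := Finset.exists_subset_card_eq (show r ≤ (B.filter fun x => f x = i).card by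
    omega)
  refine ⟨S, hSc, i, fun x hx y hy hxy => ?_⟩
  have h1 := Finset.mem_filter.1 (hS hx)
  have h2 := Finset.mem_filter.1 (hS hy)
  rw [hf' x h1.1 y h2.1 hxy, h1.2]

end Pool.Agent.Lib.MP_ac7dff_co
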